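import Pool.Agent.helper54.XP.SpecG

/-! # Project xp, module ISB: the pull backs of the visible part -/

set_option autoImplicit false

open Complex Metric Set Filter Topology MeasureTheory XP
open V3S (UF)

noncomputable section

namespace XPG

theorem ISB (hGBA : GBA_stmt) : ISB_stmt := by
  intro n C C' C'' D hG hL hs K hK hKR ε hε
  obtain ⟨ρ, hρ⟩ := hK.isBounded.subset_ball (0 : ℂ)
  have hρ1 : (0 : ℝ) < max ρ 1 := lt_of_lt_of_le one_pos (le_max_right _ _)
  have hK1 : K ⊆ ball (0 : ℂ) (max ρ 1) := hρ.trans (ball_subset_ball (le_max_left _ _))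
  filter_upwards [hL.iso K hK hKR (ε / 2) (half_pos hε),
    hL.img (max ρ 1) hρ1 (ε / 2) (half_pos hε)] with m h1 h2 j hj x hx
  obtain ⟨-, -, -, -, -, -, -, -, -, -, -, -, -, -, -, -, -, -, hB, -, -⟩ := hGBA n C (D m) (hG.ok m)
  have h3 := h1 j hj x hx
  have h4 := (h2 j hj x (hK1 hx)).2.2.2
  have e1 : (D m).B ((D m).F j x) =
      (D m).Bb ((D m).F j x) + (D m).sg ^ 2 * (D m).r ((D m).zz ((D m).F j x)) := by
    rw [hB, hs m, ofReal_one, one_mul]
  have e2 : deriv ((D m).F j) x ^ 2 * (D m).Bb ((D m).F j x) - Bin D x =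
      (deriv ((D m).F j) x ^ 2 * (D m).B ((D m).F j x) - Bin D x) -
        deriv ((D m).F j) x ^ 2 * ((D m).sg ^ 2 * (D m).r ((D m).zz ((D m).F j x))) := by
    rw [e1]
    ring
  rw [e2]
  refine (norm_sub_le _ _).trans ?_
  linarith

end XPG
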